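import Pool.Agent.Lib.Pec6744.Count

set_option autoImplicit false

/-!
# EcR.Defs: reduction of a large planar set to weighted flags

`Red P n N m w0 η x y Co`: disjoint cells `Co i` of `m` points of `P`, in each cell a flag `x i → y i`;
the flags are in general position to each other as if every flag were one point, the left half planes of
the flags contain at most `1 / w0` of the points `x j`, and half planes are well approximated by the
points `x i` with weights.
-/

namespace Pool.Agent.Lib.EcR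

open Finset Classical Pool.Agent.Lib.Pec6744

/-- `p` and `q` are strictly on the same side of the line `uv` -/
def SameSide (u v p q : E2) : Prop :=
  (0 < orient u v p ∧ 0 < orient u v q) ∨ (orient u v p < 0 ∧ orient u v q < 0)

/-- `Q` is not strictly on one side of the line `uv` -/
def Crosses (u v : E2) (Q : Finset E2) : Prop :=
  ¬ (∀ q ∈ Q, 0 < orient u v q) ∧ ¬ (∀ q ∈ Q, orient u v q < 0)

/-- the weight `v i` spread over the cell `Co i` -/
noncomputable def vh {N : ℕ} (Co : Fin N → Finset E2) (m : ℕ) (v : Fin N → ℝ) (p : E2) : ℝ :=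
  ∑ i, if p ∈ Co i then v i / m else 0

/-- the result of the reduction -/
structure Red (P : Finset E2) (n N m : ℕ) (w0 : ℚ) (η : ℝ) (x y : Fin N → E2)
    (Co : Fin N → Finset E2) : Prop where
  hm : 1 ≤ m
  hw0 : 0 < w0
  hw : w0 * n ≤ m
  sub : ∀ i, Co i ⊆ P
  card : ∀ i, (Co i).card = m
  disj : ∀ i j, i ≠ j → Disjoint (Co i) (Co j)
  hx : ∀ i, x i ∈ Co i
  hy : ∀ i, y i ∈ Co i
  ne : ∀ i, x i ≠ y i
  side3 : ∀ i j l, i ≠ j → i ≠ l → j ≠ l → ∀ u v, (u = x i ∨ u = y i) → (v = x j ∨ v = y j) →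
    SameSide u v (x l) (y l)
  side2 : ∀ i l, i ≠ l → SameSide (x i) (y i) (x l) (y l)
  light : ∀ i, ((univ.filter (fun j => 0 ≤ orient (x i) (y i) (x j))).card : ℚ) * w0 ≤ 1
  trans : ∀ v : Fin N → ℝ, (∀ i, 0 ≤ v i) → (∀ i, v i ≤ (w0 : ℝ)) → ∀ u u' : E2, u ≠ u' →
    |∑ p ∈ P.filter (fun p => 0 < orient u u' p), vh Co m v p -
      ∑ i ∈ univ.filter (fun i => 0 < orient u u' (x i)), v i| ≤ η

/-- the data of a nested tree of cells -/
structure NT (P : Finset E2) (N M m1 m2 c1 c2 : ℕ) (Co : Fin N → Finset E2)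
    (Fi : Fin N → Fin M → Finset E2) : Prop where
  sub : ∀ i, Co i ⊆ P
  fsub : ∀ i j, Fi i j ⊆ Co i
  disj : ∀ i j, i ≠ j → Disjoint (Co i) (Co j)
  card : ∀ i, (Co i).card = m1
  fcard : ∀ i j, m2 ≤ (Fi i j).card
  cr : ∀ u v, u ≠ v → (univ.filter (fun i => Crosses u v (Co i))).card ≤ c1
  fcr : ∀ u v, u ≠ v → ∀ i, (univ.filter (fun j => Crosses u v (Fi i j))).card ≤ c2

/-- a set which does not cross a line: all pairs of its points are on the same side -/
theorem sameSide_of_not_crosses {u v : E2} {Q : Finset E2} (h : ¬ Crosses u v Q) {p q : E2}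
    (hp : p ∈ Q) (hq : q ∈ Q) : SameSide u v p q := by
  unfold Crosses at h
  rw [not_and_or, not_not, not_not] at h
  rcases h with h | h
  · exact Or.inl ⟨h p hp, h q hq⟩
  · exact Or.inr ⟨h p hp, h q hq⟩

/-- every half plane is bounded by a line through two points -/
theorem exists_line (α β c : ℝ) (h : α ≠ 0 ∨ β ≠ 0) :
    ∃ u u' : E2, u ≠ u' ∧ ∀ q : E2, orient u u' q = α * q 0 + β * q 1 - c := by
  have hpos : 0 < α ^ 2 + β ^ 2 := by
    rcases h with h | h
    · have := pow_pos (abs_pos.2 h) 2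
      rw [sq_abs] at this
      nlinarith [sq_nonneg β]
    · have := pow_pos (abs_pos.2 h) 2
      rw [sq_abs] at this
      nlinarith [sq_nonneg α]
  refine ⟨!₂[α * c / (α ^ 2 + β ^ 2), β * c / (α ^ 2 + β ^ 2)],
    !₂[α * c / (α ^ 2 + β ^ 2) + β, β * c / (α ^ 2 + β ^ 2) - α], ?_, ?_⟩
  · intro he
    have h0 := congrArg (fun p : E2 => p 0) he
    have h1 := congrArg (fun p : E2 => p 1) he
    simp at h0 h1
    rcases h with h | h
    · exact h (by linarith)
    · exact h (by linarith)
  · intro q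
    simp [orient]
    field_simp
    ring

end Pool.Agent.Lib.EcR
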