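import Pool.Agent.Lib.Pec6744.Count

set_option autoImplicit false

/-!
# EcR.Flag: large subsets contain a pair with few points on its left side
-/

namespace Pool.Agent.Lib.EcR

open Finset Classical Pool.Agent.Lib.Pec6744

/-- in every large subset `Q` of `P` there is a pair `x ≠ y` with at most `n + δ` points of `P`
in the closed half plane left of `xy` -/
theorem exists_flag (k C : ℕ) (hk : 3 ≤ k) : ∃ F : ℕ, ∀ (P Q : Finset E2) (n δ : ℕ),
    GenPos P → Q ⊆ P → F ≤ Q.card → k ≤ n → NoBig P n k → 1 ≤ δ → (k - 2) * P.card ≤ C * δ →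
    ∃ x ∈ Q, ∃ y ∈ Q, x ≠ y ∧ (P.filter (fun p => 0 ≤ orient x y p)).card ≤ n + δ := by
  obtain ⟨F, hF⟩ := exists_chain (C + k + 1)
  refine ⟨F, fun P Q n δ hP hQ hFQ hkn hno hδ hC => ?_⟩
  obtain ⟨z, hz1, hz2, hz3⟩ := hF Q (fun a ha b hb c hc => hP a (hQ ha) b (hQ hb) c (hQ hc)) hFQ
  have h1 := card_bad (δ := δ) hP hk hkn hno (fun i hi => hQ (hz1 i hi)) hz2 hz3
  set R := (Finset.range (C + k + 1 - k + 1)).filter (fun i => i + k ≤ C + k + 1) with hR
  have hRc : R.card = C + 2 := by
    have : R = Finset.range (C + 2) := by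
      ext i
      rw [hR, Finset.mem_filter, Finset.mem_range, Finset.mem_range]
      omega
    rw [this, Finset.card_range]
  have h2 : (R.filter (fun i => n + δ < (innS P z i).card)).card ≤ C := by
    have h3 := h1.trans hC
    exact Nat.le_of_mul_le_mul_right h3 (by omega)
  have h3 : ∃ i ∈ R, ¬ (n + δ < (innS P z i).card) := by
    by_contra hcon
    push Not at hcon
    have : R.filter (fun i => n + δ < (innS P z i).card) = R :=
      Finset.filter_true_of_mem hcon
    rw [this, hRc] at h2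
    omega
  obtain ⟨i, hi, hi2⟩ := h3
  rw [hR, Finset.mem_filter, Finset.mem_range] at hi
  refine ⟨z i, hz1 i (by omega), z (i + 1), hz1 (i + 1) (by omega),
    hz2 i (i + 1) (by omega) (by omega), ?_⟩
  exact not_lt.1 hi2

end Pool.Agent.Lib.EcR
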