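import Pool.Agent.Lib.EcR.Defs

set_option autoImplicit false

/-!
# EcR.Light: few flags lie on the left of a flag
-/

namespace Pool.Agent.Lib.EcR

open Finset Classical Pool.Agent.Lib.Pec6744

variable {N : ℕ}

theorem card_left (P : Finset E2) (Co : Fin N → Finset E2) (hsub : ∀ i, Co i ⊆ P) (m : ℕ)
    (hcard : ∀ i, (Co i).card = m) (hdisj : ∀ i j, i ≠ j → Disjoint (Co i) (Co j))
    (x : Fin N → E2) (hx : ∀ i, x i ∈ Co i) (u u' : E2) (c : ℕ)
    (hc : (univ.filter (fun i => Crosses u u' (Co i))).card ≤ c) :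
    (univ.filter (fun j => 0 ≤ orient u u' (x j))).card * m ≤
      (P.filter (fun p => 0 ≤ orient u u' p)).card + c * m := by
  set D := univ.filter (fun j : Fin N => 0 ≤ orient u u' (x j)) with hD
  set Cr := univ.filter (fun i : Fin N => Crosses u u' (Co i)) with hCr
  have h1 : D.card ≤ (D \ Cr).card + c := by
    have h2 := Finset.card_le_card_sdiff_add_card (s := D) (t := Cr)
    omega
  have h3 : (D \ Cr).card * m ≤ (P.filter (fun p => 0 ≤ orient u u' p)).card := by
    have h4 : ((D \ Cr).biUnion Co).card = (D \ Cr).card * m := by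
      rw [Finset.card_biUnion (fun i _ j _ hij => hdisj i j hij)]
      rw [Finset.sum_congr rfl (fun i _ => hcard i), Finset.sum_const, smul_eq_mul]
    rw [← h4]
    apply Finset.card_le_card
    intro p hp
    rw [Finset.mem_biUnion] at hp
    obtain ⟨i, hi, hpi⟩ := hp
    rw [Finset.mem_sdiff] at hi
    have h5 : ¬ Crosses u u' (Co i) := fun h => hi.2 (by
      rw [hCr, Finset.mem_filter]
      exact ⟨mem_univ _, h⟩)
    have h6 := sameSide_of_not_crosses h5 (hx i) hpi
    have h7 : 0 ≤ orient u u' (x i) := by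
      have := hi.1
      rw [hD, Finset.mem_filter] at this
      exact this.2
    rw [Finset.mem_filter]
    refine ⟨hsub i hpi, ?_⟩
    rcases h6 with h6 | h6
    · exact h6.2.le
    · exact absurd h6.1 (not_lt.2 h7)
  calc D.card * m ≤ ((D \ Cr).card + c) * m := Nat.mul_le_mul_right _ h1
    _ = (D \ Cr).card * m + c * m := by ring
    _ ≤ _ := by omega

end Pool.Agent.Lib.EcR
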