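import Mathlib

set_option autoImplicit false

/-!
# EcR.Sel: a choice function avoiding few bad values (union bound)
-/

namespace Pool.Agent.Lib.EcR

open Finset

section
variable {ι κ : Type*} [Fintype ι] [DecidableEq ι] [Fintype κ] [DecidableEq κ]

/-- for one triple, few choice functions are bad -/
theorem card_bad_le (B : κ → κ → Finset κ) (β : ℕ) (hB : ∀ a b, (B a b).card ≤ β) (i j l : ι)
    (hi : i ≠ l) (hj : j ≠ l) :
    ((univ : Finset (ι → κ)).filter (fun f => f l ∈ B (f i) (f j))).card ≤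
      β * (Fintype.card κ) ^ (Fintype.card ι - 1) := by
  classical
  have h1 : ((univ : Finset (ι → κ)).filter (fun f => f l ∈ B (f i) (f j))).card =
      ((univ : Finset (κ × ({x : ι // x ≠ l} → κ))).filter
        (fun q => q.1 ∈ B (q.2 ⟨i, hi⟩) (q.2 ⟨j, hj⟩))).card := by
    refine Finset.card_equiv (Equiv.funSplitAt l κ) fun f => ?_
    simp only [Finset.mem_filter, Finset.mem_univ, true_and, Equiv.funSplitAt_apply]
  rw [h1]
  have h2 : ((univ : Finset (κ × ({x : ι // x ≠ l} → κ))).filter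
        (fun q => q.1 ∈ B (q.2 ⟨i, hi⟩) (q.2 ⟨j, hj⟩))).card =
      ∑ g : ({x : ι // x ≠ l} → κ), (B (g ⟨i, hi⟩) (g ⟨j, hj⟩)).card := by
    rw [Finset.card_eq_sum_card_fiberwise (f := Prod.snd) (t := univ) (fun _ _ => mem_univ _)]
    refine Finset.sum_congr rfl fun g _ => ?_
    refine Finset.card_bij (fun q _ => q.1) ?_ ?_ ?_
    · intro q hq
      rw [Finset.mem_filter, Finset.mem_filter] at hq
      rw [← hq.2]
      exact hq.1.2
    · intro q hq q' hq' h
      rw [Finset.mem_filter] at hq hq'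
      exact Prod.ext h (hq.2.trans hq'.2.symm)
    · intro a ha
      refine ⟨(a, g), ?_, rfl⟩
      rw [Finset.mem_filter, Finset.mem_filter]
      exact ⟨⟨mem_univ _, ha⟩, rfl⟩
  rw [h2]
  calc ∑ g : ({x : ι // x ≠ l} → κ), (B (g ⟨i, hi⟩) (g ⟨j, hj⟩)).card
      ≤ ∑ _g : ({x : ι // x ≠ l} → κ), β := Finset.sum_le_sum fun g _ => hB _ _
    _ = β * (Fintype.card κ) ^ (Fintype.card ι - 1) := by
        rw [Finset.sum_const, Finset.card_univ, Fintype.card_fun, smul_eq_mul, mul_comm]
        congr 2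
        rw [Fintype.card_subtype_compl, Fintype.card_subtype_eq]

/-- **selection**: if every triple forbids few values, a choice function avoids all of them -/
theorem exists_choice (B : ι → ι → ι → κ → κ → Finset κ) (β : ℕ)
    (hB : ∀ i j l a b, (B i j l a b).card ≤ β)
    (h : (Fintype.card ι) ^ 3 * β < Fintype.card κ) :
    ∃ f : ι → κ, ∀ i j l, i ≠ l → j ≠ l → f l ∉ B i j l (f i) (f j) := by
  classical
  by_contra hcon
  push Not at hcon
  have hκ : 0 < Fintype.card κ := by omega
  have hι : 0 < Fintype.card ι := by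
    rw [Fintype.card_pos_iff]
    have : Nonempty κ := Fintype.card_pos_iff.1 hκ
    obtain ⟨i, _⟩ := hcon (fun _ => this.some)
    exact ⟨i⟩
  have h1 : (univ : Finset (ι → κ)) ⊆ ((univ : Finset (ι × ι × ι)).filter
      (fun t => t.1 ≠ t.2.2 ∧ t.2.1 ≠ t.2.2)).biUnion (fun t =>
      univ.filter (fun f => f t.2.2 ∈ B t.1 t.2.1 t.2.2 (f t.1) (f t.2.1))) := by
    intro f _
    obtain ⟨i, j, l, hi, hj, hf⟩ := hcon f
    rw [Finset.mem_biUnion]
    refine ⟨(i, j, l), ?_, ?_⟩
    · rw [Finset.mem_filter]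
      exact ⟨mem_univ _, hi, hj⟩
    · rw [Finset.mem_filter]
      exact ⟨mem_univ _, hf⟩
  have h2 := Finset.card_le_card h1
  have h3 : (((univ : Finset (ι × ι × ι)).filter
      (fun t => t.1 ≠ t.2.2 ∧ t.2.1 ≠ t.2.2)).biUnion (fun t =>
      univ.filter (fun f : ι → κ => f t.2.2 ∈ B t.1 t.2.1 t.2.2 (f t.1) (f t.2.1)))).card ≤
      (Fintype.card ι) ^ 3 * (β * (Fintype.card κ) ^ (Fintype.card ι - 1)) := by
    refine Finset.card_biUnion_le.trans ?_
    calc _ ≤ ∑ _t ∈ ((univ : Finset (ι × ι × ι)).filter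
        (fun t => t.1 ≠ t.2.2 ∧ t.2.1 ≠ t.2.2)),
          β * (Fintype.card κ) ^ (Fintype.card ι - 1) := by
          refine Finset.sum_le_sum fun t ht => ?_
          rw [Finset.mem_filter] at ht
          exact card_bad_le (B t.1 t.2.1 t.2.2) β (hB _ _ _) _ _ _ ht.2.1 ht.2.2
      _ ≤ _ := by
          rw [Finset.sum_const, smul_eq_mul]
          apply Nat.mul_le_mul_right
          refine (Finset.card_le_univ _).trans ?_
          rw [Fintype.card_prod, Fintype.card_prod]
          exact le_of_eq (by ring)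
  rw [Finset.card_univ, Fintype.card_fun] at h2
  have h4 : (Fintype.card κ) ^ (Fintype.card ι) =
      Fintype.card κ * (Fintype.card κ) ^ (Fintype.card ι - 1) := by
    rw [← pow_succ']
    congr 1
    omega
  have h5 : 0 < (Fintype.card κ) ^ (Fintype.card ι - 1) := pow_pos hκ _
  have h6 : (Fintype.card ι) ^ 3 * (β * (Fintype.card κ) ^ (Fintype.card ι - 1)) <
      Fintype.card κ * (Fintype.card κ) ^ (Fintype.card ι - 1) := by
    rw [← mul_assoc]
    exact Nat.mul_lt_mul_of_pos_right h h5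
  rw [h4] at h2
  omega

end

end Pool.Agent.Lib.EcR
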