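import Pool.Agent.Lib.EcR.Defs
import Pool.Agent.Lib.EcR.Sel

set_option autoImplicit false

/-!
# EcR.Pick: flags in general position to each other
-/

namespace Pool.Agent.Lib.EcR

open Finset Classical Pool.Agent.Lib.Pec6744

/-- **picking flags**: if every fine cell contains a flag with at most `L` points on its left,
one flag per coarse cell can be chosen such that the fine cells of the chosen flags behave like
points -/
theorem pick {P : Finset E2} {N M m1 m2 c1 c2 : ℕ} {Co : Fin N → Finset E2}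
    {Fi : Fin N → Fin M → Finset E2} (hT : NT P N M m1 m2 c1 c2 Co Fi) (L : ℕ)
    (hL : ∀ i j, ∃ x ∈ Fi i j, ∃ y ∈ Fi i j, x ≠ y ∧
      (P.filter (fun p => 0 ≤ orient x y p)).card ≤ L)
    (hM : N ^ 3 * (4 * c2) < M) :
    ∃ x y : Fin N → E2, (∀ i, x i ∈ Co i) ∧ (∀ i, y i ∈ Co i) ∧ (∀ i, x i ≠ y i) ∧
      (∀ i, (P.filter (fun p => 0 ≤ orient (x i) (y i) p)).card ≤ L) ∧
      (∀ i j l, i ≠ j → i ≠ l → j ≠ l → ∀ u v, (u = x i ∨ u = y i) → (v = x j ∨ v = y j) →
        SameSide u v (x l) (y l)) ∧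
      (∀ i l, i ≠ l → SameSide (x i) (y i) (x l) (y l)) := by
  choose X hX Y hY hne hXL using hL
  have hXY : ∀ (i j : Fin N) (a b : Fin M), i ≠ j → ∀ u v, (u = X i a ∨ u = Y i a) →
      (v = X j b ∨ v = Y j b) → u ≠ v := by
    intro i j a b hij u v hu hv huv
    have hu' : u ∈ Co i := by
      rcases hu with rfl | rfl
      · exact hT.fsub i a (hX i a)
      · exact hT.fsub i a (hY i a)
    have hv' : v ∈ Co j := by
      rcases hv with rfl | rfl
      · exact hT.fsub j b (hX j b)
      · exact hT.fsub j b (hY j b)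
    rw [huv] at hu'
    exact Finset.disjoint_left.1 (hT.disj i j hij) hu' hv'
  set CrS : E2 → E2 → Fin N → Finset (Fin M) :=
    fun u v l => univ.filter (fun c => Crosses u v (Fi l c)) with hCrS
  set B : Fin N → Fin N → Fin N → Fin M → Fin M → Finset (Fin M) := fun i j l a b =>
    if i = j then CrS (X i a) (Y i a) l else
      (CrS (X i a) (X j b) l ∪ CrS (X i a) (Y j b) l) ∪
        (CrS (Y i a) (X j b) l ∪ CrS (Y i a) (Y j b) l) with hB
  have hBc : ∀ i j l a b, (B i j l a b).card ≤ 4 * c2 := by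
    intro i j l a b
    simp only [hB]
    split_ifs with h
    · have := hT.fcr (X i a) (Y i a) (hne i a) l
      simp only [hCrS]
      omega
    · have h1 := hT.fcr (X i a) (X j b) (hXY i j a b h _ _ (Or.inl rfl) (Or.inl rfl)) l
      have h2 := hT.fcr (X i a) (Y j b) (hXY i j a b h _ _ (Or.inl rfl) (Or.inr rfl)) l
      have h3 := hT.fcr (Y i a) (X j b) (hXY i j a b h _ _ (Or.inr rfl) (Or.inl rfl)) l
      have h4 := hT.fcr (Y i a) (Y j b) (hXY i j a b h _ _ (Or.inr rfl) (Or.inr rfl)) l
      have h5 := Finset.card_union_le (CrS (X i a) (X j b) l) (CrS (X i a) (Y j b) l)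
      have h6 := Finset.card_union_le (CrS (Y i a) (X j b) l) (CrS (Y i a) (Y j b) l)
      have h7 := Finset.card_union_le (CrS (X i a) (X j b) l ∪ CrS (X i a) (Y j b) l)
        (CrS (Y i a) (X j b) l ∪ CrS (Y i a) (Y j b) l)
      simp only [hCrS] at h5 h6 h7 ⊢
      omega
  obtain ⟨f, hf⟩ := exists_choice B (4 * c2) hBc (by simpa using hM)
  refine ⟨fun i => X i (f i), fun i => Y i (f i), fun i => hT.fsub i _ (hX i _),
    fun i => hT.fsub i _ (hY i _), fun i => hne i _, fun i => hXL i _, ?_, ?_⟩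
  · intro i j l hij hil hjl u v hu hv
    have h1 := hf i j l hil hjl
    simp only [hB, if_neg hij, Finset.mem_union, not_or, hCrS, Finset.mem_filter,
      Finset.mem_univ, true_and] at h1
    obtain ⟨⟨h2, h3⟩, h4, h5⟩ := h1
    rcases hu with rfl | rfl <;> rcases hv with rfl | rfl
    · exact sameSide_of_not_crosses h2 (hX l _) (hY l _)
    · exact sameSide_of_not_crosses h3 (hX l _) (hY l _)
    · exact sameSide_of_not_crosses h4 (hX l _) (hY l _)
    · exact sameSide_of_not_crosses h5 (hX l _) (hY l _)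
  · intro i l hil
    have h1 := hf i i l hil hil
    simp only [hB, if_true, hCrS, Finset.mem_filter, Finset.mem_univ, true_and] at h1
    exact sameSide_of_not_crosses h1 (hX l _) (hY l _)

end Pool.Agent.Lib.EcR
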