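import Pool.Agent.Lib.EcR.Defs

set_option autoImplicit false

/-!
# EcR.Trans: transfer of weights between flags and points
-/

namespace Pool.Agent.Lib.EcR

open Finset Classical Pool.Agent.Lib.Pec6744

variable {N : ℕ}

/-- the weight of the points with a property -/
theorem sum_vh (P : Finset E2) (Co : Fin N → Finset E2) (hsub : ∀ i, Co i ⊆ P) (m : ℕ)
    (v : Fin N → ℝ) (H : E2 → Prop) :
    ∑ p ∈ P.filter H, vh Co m v p = ∑ i, ((Co i).filter H).card * (v i / m) := by
  unfold vh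
  rw [Finset.sum_comm]
  refine Finset.sum_congr rfl fun i _ => ?_
  rw [← Finset.sum_filter, Finset.sum_const, nsmul_eq_mul]
  congr 2
  congr 1
  ext p
  simp only [Finset.mem_filter]
  constructor
  · rintro ⟨⟨_, h1⟩, h2⟩
    exact ⟨h2, h1⟩
  · rintro ⟨h2, h1⟩
    exact ⟨⟨hsub i h2, h1⟩, h2⟩

/-- the total weight -/
theorem sum_vh_all (P : Finset E2) (Co : Fin N → Finset E2) (hsub : ∀ i, Co i ⊆ P) (m : ℕ)
    (hm : 1 ≤ m) (hcard : ∀ i, (Co i).card = m) (v : Fin N → ℝ) :
    ∑ p ∈ P, vh Co m v p = ∑ i, v i := by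
  have h := sum_vh P Co hsub m v (fun _ => True)
  rw [Finset.filter_true] at h
  rw [h]
  refine Finset.sum_congr rfl fun i _ => ?_
  rw [Finset.filter_true, hcard i]
  have : (m : ℝ) ≠ 0 := by positivity
  field_simp

theorem vh_nonneg (Co : Fin N → Finset E2) (m : ℕ) (v : Fin N → ℝ) (hv : ∀ i, 0 ≤ v i) (p : E2) :
    0 ≤ vh Co m v p := by
  unfold vh
  refine Finset.sum_nonneg fun i _ => ?_
  split_ifs
  · exact div_nonneg (hv i) (Nat.cast_nonneg _)
  · exact le_rfl

/-- the weight of one point -/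
theorem vh_le (Co : Fin N → Finset E2) (hdisj : ∀ i j, i ≠ j → Disjoint (Co i) (Co j)) (m : ℕ)
    (v : Fin N → ℝ) (w0 : ℝ) (hw0 : 0 ≤ w0) (hv : ∀ i, v i ≤ w0) (p : E2) :
    vh Co m v p ≤ w0 / m := by
  unfold vh
  have hm0 : (0 : ℝ) ≤ m := Nat.cast_nonneg _
  by_cases h : ∃ i, p ∈ Co i
  · obtain ⟨i, hi⟩ := h
    rw [Finset.sum_eq_single i]
    · rw [if_pos hi]
      exact div_le_div_of_nonneg_right (hv i) hm0
    · intro j _ hji
      exact if_neg (fun hj => Finset.disjoint_left.1 (hdisj j i hji) hj hi)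
    · intro hi'
      exact absurd (mem_univ i) hi'
  · push Not at h
    rw [Finset.sum_eq_zero (fun i _ => if_neg (h i))]
    positivity

/-- transfer for a property which is constant on most cells -/
theorem transfer (P : Finset E2) (Co : Fin N → Finset E2) (hsub : ∀ i, Co i ⊆ P) (m : ℕ)
    (hm : 1 ≤ m) (hcard : ∀ i, (Co i).card = m) (x : Fin N → E2) (hx : ∀ i, x i ∈ Co i)
    (v : Fin N → ℝ) (w0 : ℝ) (hv0 : ∀ i, 0 ≤ v i) (hv : ∀ i, v i ≤ w0) (H : E2 → Prop) (c : ℕ)
    (hc : (univ.filter (fun i => ¬ (∀ q ∈ Co i, H q) ∧ ¬ (∀ q ∈ Co i, ¬ H q))).card ≤ c)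
    (hw0 : 0 ≤ w0) :
    |∑ p ∈ P.filter H, vh Co m v p - ∑ i ∈ univ.filter (fun i => H (x i)), v i| ≤ c * w0 := by
  rw [sum_vh P Co hsub m v H, Finset.sum_filter, ← Finset.sum_sub_distrib]
  have hm0 : (0 : ℝ) < m := by exact_mod_cast hm
  set Cr := univ.filter (fun i : Fin N => ¬ (∀ q ∈ Co i, H q) ∧ ¬ (∀ q ∈ Co i, ¬ H q)) with hCr
  have h1 : ∀ i, |(((Co i).filter H).card : ℝ) * (v i / m) - (if H (x i) then v i else 0)| ≤
      if i ∈ Cr then w0 else 0 := by
    intro i
    have hle : (((Co i).filter H).card : ℝ) ≤ m := by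
      have := Finset.card_filter_le (Co i) H
      rw [hcard i] at this
      exact_mod_cast this
    by_cases hi : i ∈ Cr
    · rw [if_pos hi]
      have h2 : (((Co i).filter H).card : ℝ) * (v i / m) ≤ v i := by
        rw [mul_div_assoc', div_le_iff₀ hm0, mul_comm]
        exact mul_le_mul_of_nonneg_left hle (hv0 i)
      have h3 : 0 ≤ (((Co i).filter H).card : ℝ) * (v i / m) := by
        have := hv0 i
        positivity
      rw [abs_le]
      have h4 := hv0 i
      have h5 := hv i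
      split_ifs <;> constructor <;> linarith
    · rw [if_neg hi]
      rw [hCr, Finset.mem_filter, not_and, not_and_or, not_not, not_not] at hi
      rcases hi (mem_univ i) with hi | hi
      · rw [Finset.filter_true_of_mem hi, hcard i, if_pos (hi _ (hx i))]
        have : (m : ℝ) * (v i / m) - v i = 0 := by
          field_simp
          ring
        rw [this, abs_zero]
      · rw [Finset.filter_false_of_mem hi, if_neg (hi _ (hx i))]
        simp
  calc |∑ i, ((((Co i).filter H).card : ℝ) * (v i / m) - (if H (x i) then v i else 0))|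
      ≤ ∑ i, |(((Co i).filter H).card : ℝ) * (v i / m) - (if H (x i) then v i else 0)| :=
        Finset.abs_sum_le_sum_abs _ _
    _ ≤ ∑ i, if i ∈ Cr then w0 else 0 := Finset.sum_le_sum fun i _ => h1 i
    _ = Cr.card * w0 := by
        rw [← Finset.sum_filter, Finset.sum_const, nsmul_eq_mul]
        congr 2
        congr 1
        ext i
        simp
    _ ≤ c * w0 := by
        apply mul_le_mul_of_nonneg_right _ hw0
        exact_mod_cast hc

/-- most cells lie on one side of a line -/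
theorem card_crossed_le (Co : Fin N → Finset E2) (u u' : E2) (c : ℕ)
    (hc : (univ.filter (fun i => Crosses u u' (Co i))).card ≤ c) :
    (univ.filter (fun i => ¬ (∀ q ∈ Co i, 0 < orient u u' q) ∧
      ¬ (∀ q ∈ Co i, ¬ 0 < orient u u' q))).card ≤ c := by
  refine le_trans (Finset.card_le_card ?_) hc
  intro i hi
  rw [Finset.mem_filter] at hi ⊢
  refine ⟨mem_univ _, hi.2.1, fun h => hi.2.2 fun q hq => not_lt.2 (h q hq).le⟩

/-- transfer for half planes in functional form -/
theorem Red.transH {P : Finset E2} {n m : ℕ} {w0 : ℚ} {η : ℝ} {x y : Fin N → E2}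
    {Co : Fin N → Finset E2} (h : Red P n N m w0 η x y Co) (v : Fin N → ℝ) (hv0 : ∀ i, 0 ≤ v i)
    (hv : ∀ i, v i ≤ (w0 : ℝ)) (α β c : ℝ) (hab : α ≠ 0 ∨ β ≠ 0) :
    |∑ p ∈ P.filter (fun p => c < α * p 0 + β * p 1), vh Co m v p -
      ∑ i ∈ univ.filter (fun i => c < α * x i 0 + β * x i 1), v i| ≤ η := by
  obtain ⟨u, u', hne, hq⟩ := exists_line α β c hab
  have h1 := h.trans v hv0 hv u u' hne
  have h2 : ∀ q : E2, 0 < orient u u' q ↔ c < α * q 0 + β * q 1 := by
    intro q
    rw [hq q, sub_pos]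
  simp only [h2] at h1
  exact h1

/-- the spread weight of one point is at most `1 / n` -/
theorem Red.vh_mul_le {P : Finset E2} {n m : ℕ} {w0 : ℚ} {η : ℝ} {x y : Fin N → E2}
    {Co : Fin N → Finset E2} (h : Red P n N m w0 η x y Co) (v : Fin N → ℝ)
    (hv : ∀ i, v i ≤ (w0 : ℝ)) (p : E2) : vh Co m v p * n ≤ 1 := by
  have hw0 : (0 : ℝ) ≤ w0 := by exact_mod_cast h.hw0.le
  have hm : (0 : ℝ) < m := by exact_mod_cast h.hm
  have h1 := vh_le Co h.disj m v w0 hw0 hv p
  have h2 : (w0 : ℝ) * n ≤ m := by exact_mod_cast h.hw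
  calc vh Co m v p * n ≤ (w0 : ℝ) / m * n :=
        mul_le_mul_of_nonneg_right h1 (Nat.cast_nonneg _)
    _ = (w0 : ℝ) * n / m := by ring
    _ ≤ 1 := by
        rw [div_le_one hm]
        exact h2

/-- the total spread weight -/
theorem Red.sum_vh {P : Finset E2} {n m : ℕ} {w0 : ℚ} {η : ℝ} {x y : Fin N → E2}
    {Co : Fin N → Finset E2} (h : Red P n N m w0 η x y Co) (v : Fin N → ℝ) :
    ∑ p ∈ P, vh Co m v p = ∑ i, v i :=
  sum_vh_all P Co h.sub m h.hm h.card v

end Pool.Agent.Lib.EcR
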