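import Pool.Agent.Lib.EcR.Flag
import Pool.Agent.Lib.EcR.Pick
import Pool.Agent.Lib.EcR.Trans
import Pool.Agent.Lib.EcR.Light
import Pool.Agent.Lib.EcT.Tree

set_option autoImplicit false

/-!
# EcR.Main: the reduction theorem (C3 - C6, C10)
-/

namespace Pool.Agent.Lib.EcR

open Finset Classical Pool.Agent.Lib.Pec6744 Pool.Agent.Lib.EcT

/-- the nested tree in the form used here -/
theorem exists_NT (d1 d2 m : ℕ) {P : Finset E2} (hP : GenPos P)
    (hc : 4 ^ d1 * (4 ^ d2 * m + cT d2) + cT d1 ≤ P.card) :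
    ∃ (Co : Fin (4 ^ d1) → Finset E2) (Fi : Fin (4 ^ d1) → Fin (4 ^ d2) → Finset E2),
      NT P (4 ^ d1) (4 ^ d2) (4 ^ d2 * m + cT d2) m (3 ^ d1) (3 ^ d2) Co Fi := by
  obtain ⟨U, F, h1, h2, h3, h4, h5, h6, _, h8⟩ := nested d1 d2 m hP hc
  have e1 : Fin (4 ^ d1) ≃ (Fin d1 → Fin 4) := Fintype.equivOfCardEq (by simp)
  have e2 : Fin (4 ^ d2) ≃ (Fin d2 → Fin 4) := Fintype.equivOfCardEq (by simp)
  have hCr : ∀ u v Q, Crosses u v Q ↔ ¬ Miss u v Q := by
    intro u v Q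
    unfold Crosses Miss
    rw [not_or]
  refine ⟨fun i => U (e1 i), fun i j => F (e1 i) (e2 j), ?_, ?_, ?_, ?_, ?_, ?_, ?_⟩
  · exact fun i => h1 _
  · exact fun i j => h5 _ _
  · exact fun i j hij => h3 _ _ (fun h => hij (e1.injective h))
  · exact fun i => h2 _
  · exact fun i j => (h6 _ _).ge
  · intro u v huv
    refine le_trans (le_of_eq ?_) (h4 u v huv)
    rw [← Set.ncard_coe_finset, ← Set.ncard_image_of_injective _ e1.injective]
    congr 1
    ext i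
    simp only [Set.mem_image, Finset.coe_filter, Finset.mem_univ, true_and, Set.mem_setOf_eq, hCr]
    constructor
    · rintro ⟨j, hj, rfl⟩
      exact hj
    · intro hi
      exact ⟨e1.symm i, by rw [Equiv.apply_symm_apply]; exact hi, Equiv.apply_symm_apply _ _⟩
  · intro u v huv i
    refine le_trans (le_of_eq ?_) (h8 (e1 i) u v huv)
    rw [← Set.ncard_coe_finset, ← Set.ncard_image_of_injective _ e2.injective]
    congr 1
    ext j
    simp only [Set.mem_image, Finset.coe_filter, Finset.mem_univ, true_and, Set.mem_setOf_eq, hCr]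
    constructor
    · rintro ⟨j', hj, rfl⟩
      exact hj
    · intro hj
      exact ⟨e2.symm j, by rw [Equiv.apply_symm_apply]; exact hj, Equiv.apply_symm_apply _ _⟩

/-- numerical part: the total weight -/
theorem weight_calc (k : ℕ) (ε ε1 ρ : ℝ) (hε : 0 < ε) (hk : 1 ≤ k) (hε1 : 0 < ε1) (hρ : 0 < ρ)
    (h1 : 8 * ε1 * (k + ε) ≤ ε) (h2 : 8 * ρ * (k + ε) ^ 2 ≤ ε) (n A c : ℝ) (hn : 0 < n)
    (hc : 8 * c ≤ ε * n) (hc0 : 0 ≤ c) (hA : ((k - 1) / 2 + ε) * n - c ≤ A)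
    (hAk : A ≤ k * n) :
    ((k : ℝ) - 1) / 2 + ε / 2 ≤ A / (n + ε1 * n + ρ * A) := by
  have hk' : (1 : ℝ) ≤ k := by exact_mod_cast hk
  set K : ℝ := ((k : ℝ) - 1) / 2 with hK
  have hK0 : 0 ≤ K := by rw [hK]; linarith
  have hA0 : 0 < A := by
    have : (K + ε) * n - c > 0 := by nlinarith
    linarith
  have hden : 0 < n + ε1 * n + ρ * A := by positivity
  rw [le_div_iff₀ hden]
  -- (K + ε/2) (n + ε1 n + ρ A) ≤ A
  have h3 : (K + ε / 2) * (ε1 * n) ≤ ε / 8 * n := by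
    have h4 : (K + ε / 2) * ε1 ≤ ε / 8 := by
      have : K + ε / 2 ≤ k + ε := by rw [hK]; linarith
      nlinarith
    nlinarith
  have h5 : (K + ε / 2) * (ρ * A) ≤ ε / 8 * n := by
    have h6 : (K + ε / 2) ≤ k + ε := by rw [hK]; linarith
    have h7 : A ≤ (k + ε) * n := by nlinarith
    calc (K + ε / 2) * (ρ * A) ≤ (k + ε) * (ρ * ((k + ε) * n)) := by gcongr
      _ = (ρ * (k + ε) ^ 2) * n := by ring
      _ ≤ ε / 8 * n := by
          apply mul_le_mul_of_nonneg_right _ hn.le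
          linarith
  nlinarith

/-- a power of `3/4` beats a constant -/
theorem exists_d2 (K : ℕ) : ∃ d : ℕ, K * (4 * 3 ^ d) < 4 ^ d := by
  obtain ⟨d, hd⟩ := exists_pow_lt_of_lt_one (show (0 : ℝ) < 1 / (4 * K + 1) by positivity)
    (show (3 / 4 : ℝ) < 1 by norm_num)
  refine ⟨d, ?_⟩
  rw [div_pow, lt_div_iff₀ (by positivity), div_mul_eq_mul_div, div_lt_one (by positivity)] at hd
  have h1 : (K : ℝ) * (4 * 3 ^ d) < 4 ^ d := by
    have : (0 : ℝ) < 3 ^ d := by positivity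
    nlinarith
  exact_mod_cast h1

/-- **REDUCTION**: a large set without big subsets of many hull vertices gives weighted flags -/
theorem red2 (k : ℕ) (hk : 3 ≤ k) (ε η : ℝ) (hε : 0 < ε) (hη : 0 < η) :
    ∃ n0 : ℕ, ∀ n : ℕ, n0 ≤ n → ∀ P : Finset E2, GenPos P → NoBig P n k →
      (((k : ℝ) - 1) / 2 + ε) * n ≤ P.card → (P.card : ℝ) ≤ k * n →
      ∃ (N m : ℕ) (w0 : ℚ) (x y : Fin N → E2) (Co : Fin N → Finset E2),
        Red P n N m w0 η x y Co ∧ ((k : ℝ) - 1) / 2 + ε / 2 ≤ N * (w0 : ℝ) := by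
  have hkR : (3 : ℝ) ≤ k := by exact_mod_cast hk
  have hke : 0 < (k : ℝ) + ε := by linarith
  -- constants
  set ε1 : ℝ := ε / (8 * (k + ε)) with hε1
  have hε1p : 0 < ε1 := by positivity
  have hε1e : 8 * ε1 * (k + ε) ≤ ε := by
    rw [hε1]
    apply le_of_eq
    field_simp
  obtain ⟨d1, hd1⟩ := exists_pow_lt_of_lt_one
    (show (0 : ℝ) < min (ε / (8 * (k + ε) ^ 2)) (η / k) by
      apply lt_min <;> positivity) (show (3 / 4 : ℝ) < 1 by norm_num)
  set ρ : ℝ := (3 / 4) ^ d1 with hρ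
  have hρp : 0 < ρ := by positivity
  have hρ1 : 8 * ρ * (k + ε) ^ 2 ≤ ε := by
    have h1 := hd1.le.trans (min_le_left _ _)
    rw [le_div_iff₀ (by positivity)] at h1
    linarith
  have hρ2 : k * ρ ≤ η := by
    have h1 := hd1.le.trans (min_le_right _ _)
    rw [le_div_iff₀ (by positivity)] at h1
    linarith
  set C : ℕ := ⌈2 * (k : ℝ) ^ 2 / ε1⌉₊ with hC
  obtain ⟨F, hF⟩ := exists_flag k C hk
  obtain ⟨d2, hd2⟩ := exists_d2 ((4 ^ d1) ^ 3)
  set T : ℕ := 4 ^ d1 * 4 ^ d2 with hT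
  have hTp : 0 < T := by positivity
  set c0 : ℕ := cT d1 + 4 ^ d1 * cT d2 with hc0
  obtain ⟨n0, hn0⟩ := exists_nat_ge (max (max (k : ℝ) (2 / ε1)) (max ((c0 : ℝ) + T * F)
    (8 * (cT d1 + T) / ε)))
  refine ⟨n0 + 1, fun n hn P hP hno hPl hPu => ?_⟩
  have hnR : (n0 : ℝ) ≤ n := by exact_mod_cast (by omega : n0 ≤ n)
  have hnpos : (0 : ℝ) < n := by exact_mod_cast (by omega : 0 < n)
  have hn1 : (k : ℝ) ≤ n := ((le_max_left _ _).trans (le_max_left _ _)).trans (hn0.trans hnR)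
  have hn2 : 2 / ε1 ≤ n := ((le_max_right _ _).trans (le_max_left _ _)).trans (hn0.trans hnR)
  have hn3 : (c0 : ℝ) + T * F ≤ n :=
    ((le_max_left _ _).trans (le_max_right _ _)).trans (hn0.trans hnR)
  have hn4 : 8 * (cT d1 + T) / ε ≤ n :=
    ((le_max_right _ _).trans (le_max_right _ _)).trans (hn0.trans hnR)
  have hkn : k ≤ n := by exact_mod_cast hn1
  have hPn : n ≤ P.card := by
    have : (n : ℝ) ≤ P.card := by
      refine le_trans ?_ hPl
      have : (1 : ℝ) ≤ ((k : ℝ) - 1) / 2 + ε := by linarith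
      nlinarith
    exact_mod_cast this
  have hcP : c0 + T * F ≤ P.card := by
    have : c0 + T * F ≤ n := by exact_mod_cast hn3
    omega
  -- δ
  set δ : ℕ := ⌊ε1 * n⌋₊ with hδ
  have hεn : 2 ≤ ε1 * n := by
    rw [div_le_iff₀ hε1p] at hn2
    linarith
  have hδ1 : (δ : ℝ) ≤ ε1 * n := Nat.floor_le (by positivity)
  have hδ2 : ε1 * n / 2 ≤ δ := by
    have := Nat.lt_floor_add_one (ε1 * n)
    rw [← hδ] at this
    linarith
  have hδ3 : 1 ≤ δ := by
    have : (1 : ℝ) ≤ δ := by linarith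
    exact_mod_cast this
  have hCδ : (k - 2) * P.card ≤ C * δ := by
    have h1 : ((k - 2 : ℕ) : ℝ) ≤ k := by exact_mod_cast Nat.sub_le k 2
    have h2 : (((k - 2) * P.card : ℕ) : ℝ) ≤ ((C * δ : ℕ) : ℝ) := by
      push_cast
      calc ((k - 2 : ℕ) : ℝ) * P.card ≤ k * (k * n) := by gcongr
        _ = (2 * (k : ℝ) ^ 2 / ε1) * (ε1 * n / 2) := by
            field_simp
        _ ≤ C * δ := by
            have h3 : 2 * (k : ℝ) ^ 2 / ε1 ≤ C := Nat.le_ceil _
            gcongr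
    exact_mod_cast h2
  -- the tree
  set m : ℕ := (P.card - c0) / T with hm
  have hm1 : T * m ≤ P.card - c0 := Nat.mul_div_le _ _
  have hm2 : P.card - c0 < T * (m + 1) := by
    have := Nat.lt_mul_div_succ (P.card - c0) hTp
    rw [← hm] at this
    exact this
  have hmF : F ≤ m := by
    rw [hm, Nat.le_div_iff_mul_le hTp]
    rw [mul_comm F T]
    omega
  set m1 : ℕ := 4 ^ d2 * m + cT d2 with hm1'
  have hTm1 : 4 ^ d1 * m1 = T * m + 4 ^ d1 * cT d2 := by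
    rw [hm1', hT]
    ring
  have htree : 4 ^ d1 * m1 + cT d1 ≤ P.card := by
    rw [hTm1]
    omega
  obtain ⟨Co, Fi, hNT⟩ := exists_NT d1 d2 m hP htree
  rw [← hm1'] at hNT
  have hA1 : (((4 : ℕ) ^ d1 : ℕ) : ℝ) * m1 ≤ P.card := by
    have : 4 ^ d1 * m1 ≤ P.card := by omega
    exact_mod_cast this
  have hA2 : (P.card : ℝ) - (cT d1 + T) ≤ (((4 : ℕ) ^ d1 : ℕ) : ℝ) * m1 := by
    have h1 : P.card ≤ 4 ^ d1 * m1 + (cT d1 + T) := by
      rw [hTm1]
      have : T * (m + 1) = T * m + T := by ring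
      omega
    have h2 : (P.card : ℝ) ≤ (((4 : ℕ) ^ d1 : ℕ) : ℝ) * m1 + (cT d1 + T) := by exact_mod_cast h1
    linarith
  have hm1pos : 1 ≤ m1 := by
    by_contra hcon
    have h0 : m1 = 0 := by omega
    rw [h0] at hA2
    have h1 : 8 * ((cT d1 : ℝ) + T) ≤ ε * n := by
      rw [div_le_iff₀ hε] at hn4
      linarith
    have h2 : (n : ℝ) ≤ P.card := by exact_mod_cast hPn
    have h3 : (((k : ℝ) - 1) / 2 + ε) * n ≤ cT d1 + T := by
      push_cast at hA2
      linarith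
    nlinarith
  -- flags
  obtain ⟨x, y, hx, hy, hne, hL, hs3, hs2⟩ := pick hNT (n + δ) (by
    intro i j
    have hsub : Fi i j ⊆ P := (hNT.fsub i j).trans (hNT.sub i)
    exact hF P (Fi i j) n δ hP hsub (hmF.trans (hNT.fcard i j)) hkn hno hδ3 hCδ) hd2
  set n' : ℕ := n + δ + 3 ^ d1 * m1 with hn'
  have hn'pos : 0 < n' := by omega
  have hn'Q : (0 : ℚ) < n' := by exact_mod_cast hn'pos
  have hn'R : (0 : ℝ) < n' := by exact_mod_cast hn'pos
  have h3m : (3 : ℝ) ^ d1 * m1 = ρ * (((4 : ℕ) ^ d1 : ℕ) * m1) := by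
    rw [hρ, div_pow]
    push_cast
    field_simp
  refine ⟨4 ^ d1, m1, (m1 : ℚ) / n', x, y, Co, ⟨hm1pos, ?_, ?_, hNT.sub, hNT.card, hNT.disj, hx,
    hy, hne, hs3, hs2, ?_, ?_⟩, ?_⟩
  · have : (0 : ℚ) < m1 := by exact_mod_cast hm1pos
    positivity
  · rw [div_mul_eq_mul_div, div_le_iff₀ hn'Q]
    have : (n : ℚ) ≤ n' := by exact_mod_cast (by omega : n ≤ n')
    have h0 : (0 : ℚ) ≤ m1 := Nat.cast_nonneg _
    nlinarith
  · intro i
    have h1 := card_left P Co hNT.sub m1 hNT.card hNT.disj x hx (x i) (y i) (3 ^ d1)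
      (hNT.cr _ _ (hne i))
    have h2 := hL i
    rw [mul_div_assoc', div_le_one hn'Q]
    have h3 : (univ.filter (fun j => 0 ≤ orient (x i) (y i) (x j))).card * m1 ≤ n' := by
      rw [hn']
      omega
    exact_mod_cast h3
  · intro v hv0 hv u u' huu
    have hw0 : (0 : ℝ) ≤ (((m1 : ℚ) / n' : ℚ) : ℝ) := by
      push_cast
      positivity
    refine (transfer P Co hNT.sub m1 hm1pos hNT.card x hx v _ hv0 hv (fun p => 0 < orient u u' p)
      (3 ^ d1) (card_crossed_le Co u u' _ (hNT.cr _ _ huu)) hw0).trans ?_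
    push_cast
    rw [mul_div_assoc', div_le_iff₀ hn'R, h3m]
    have h1 : (n : ℝ) ≤ n' := by exact_mod_cast (by omega : n ≤ n')
    calc ρ * (((4 : ℕ) ^ d1 : ℕ) * m1) ≤ ρ * (k * n) :=
          mul_le_mul_of_nonneg_left (hA1.trans hPu) hρp.le
      _ = k * ρ * n := by ring
      _ ≤ η * n' := by gcongr
  · have h1 := weight_calc k ε ε1 ρ hε (by omega) hε1p hρp hε1e hρ1 n
      ((((4 : ℕ) ^ d1 : ℕ) : ℝ) * m1) (cT d1 + T) hnpos (by
        rw [div_le_iff₀ hε] at hn4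
        linarith) (by positivity) (by linarith) (hA1.trans hPu)
    refine h1.trans ?_
    push_cast
    rw [mul_div_assoc']
    apply div_le_div_of_nonneg_left (by positivity) hn'R
    rw [hn']
    push_cast
    push_cast at h3m
    rw [h3m]
    linarith

end Pool.Agent.Lib.EcR
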